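import Mathlib
import Pool.Agent.Dirac80.Defs
import Pool.Agent.Dirac80.Parity

/-!
# Even lines through a point
-/

set_option autoImplicit false
open Finset

namespace Pool.Agent.Dirac86.Few

open Pool.Agent.Dirac80 (connectingLines Pl)

open Classical in
/-- the number of lines with an even number of points of `S` through `x` -/
noncomputable def evl (S : Finset Pl) (x : Pl) : ℕ :=
  ((connectingLines S).filter (fun T => Even T.card ∧ x ∈ T)).card

end Pool.Agent.Dirac86.Few
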