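import Mathlib
import Pool.Agent.Dirac86.Few.Defs
import Pool.Agent.Dirac86.Kmp

/-!
# Even lines through a point: parity and double count
-/

set_option autoImplicit false
open Finset Classical

namespace Pool.Agent.Dirac86.Few

open Pool.Agent.Dirac80 (connectingLines mem_connecting Pl)
open Pool.Agent.Dirac80b (ev_parity)

theorem evl_odd (S : Finset Pl) (hn : Even S.card) {x : Pl} (hx : x ∈ S) : Odd (evl S x) := by
  have h1 := ev_parity S ⟨x, hx⟩
  rw [Pool.Agent.Dirac86.KM.ev_eq] at h1
  have h2 : evl S x = ((connectingLines S).filter (fun T => Even T.card ∧ x ∈ T)).card := by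
    unfold evl
    rfl
  rw [h2]
  obtain ⟨a, ha⟩ := hn
  obtain ⟨b, hb⟩ := h1
  rw [Nat.odd_iff]
  have hb' : S.card + 1 + ((connectingLines S).filter (fun T => Even T.card ∧ x ∈ T)).card
    = b + b := hb
  omega

/-- double count for a family of subsets -/
theorem double (S : Finset Pl) (F : Finset (Finset Pl)) (hF : ∀ T ∈ F, T ⊆ S) :
    ∑ x ∈ S, (F.filter (fun T => x ∈ T)).card = ∑ T ∈ F, T.card := by
  have h1 : ∀ x ∈ S, (F.filter (fun T => x ∈ T)).card = ∑ T ∈ F, if x ∈ T then 1 else 0 := by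
    intro x _
    rw [card_filter]
  rw [sum_congr rfl h1, sum_comm]
  refine sum_congr rfl (fun T hT => ?_)
  rw [← card_filter]
  congr 1
  ext x
  rw [mem_filter]
  exact ⟨fun h => h.2, fun h => ⟨hF T hT h, h⟩⟩

end Pool.Agent.Dirac86.Few
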