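import Mathlib

/-!
# The heads of a set with many even directions (module M2)
-/

set_option autoImplicit false
open Finset Classical

namespace Pool.Agent.Dirac86.Few

open Filter Topology in
/-- M2 (Heads.lean). `F` is a finite set of points `(X w, Y w)`, `B ⊆ A` as in M1. Then there are
at least `2|B|` points `b` of `F` each of which is, for some direction `c` outside `s A`, the unique
highest point with respect to `ε (X - c Y)`, `ε = ±1`. -/
theorem heads {ι κ : Type*} (F : Finset ι) (X Y : ι → ℝ)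
    (hinj : ∀ i ∈ F, ∀ j ∈ F, X i = X j → Y i = Y j → i = j) (hF : F.Nonempty)
    (A B : Finset κ) (hBA : B ⊆ A) (s : κ → ℝ)
    (hs : ∀ i ∈ A, ∀ j ∈ A, s i = s j → i = j) (h2 : 2 ≤ B.card)
    (hev : ∀ y ∈ B, ∀ r : ℝ, Even (F.filter (fun w => X w - s y * Y w = r)).card) :
    ∃ V ⊆ F, V.card = 2 * B.card ∧ ∀ b ∈ V, ∃ c ε : ℝ, (ε = 1 ∨ ε = -1) ∧
      (∀ i ∈ A, s i ≠ c) ∧
      ∀ w ∈ F, w ≠ b → ε * (X w - c * Y w) < ε * (X b - c * Y b) := by
  -- the lexicographically highest points
  have hex : ∀ (y : κ) (ε : ℝ), ∃ b : ι, y ∈ B → (ε = 1 ∨ ε = -1) →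
      b ∈ F ∧ (∀ w ∈ F, ε * (X w - s y * Y w) ≤ ε * (X b - s y * Y b)) ∧
      (∀ w ∈ F, X w - s y * Y w = X b - s y * Y b → w ≠ b → ε * Y w < ε * Y b) ∧
      (∃ t ∈ F, X t - s y * Y t = X b - s y * Y b ∧ ε * Y t < ε * Y b) := by
    intro y ε
    by_cases hy : y ∈ B
    swap
    · obtain ⟨b0, _⟩ := hF
      exact ⟨b0, fun h => absurd h hy⟩
    by_cases hε : ε = 1 ∨ ε = -1
    swap
    · obtain ⟨b0, _⟩ := hF
      exact ⟨b0, fun _ h => absurd h hε⟩
    have hε0 : ε ≠ 0 := by
      rcases hε with h | h <;> rw [h] <;> norm_num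
    obtain ⟨m, hm, hmax⟩ := Finset.exists_max_image F (fun w => ε * (X w - s y * Y w)) hF
    set F' := F.filter (fun w => X w - s y * Y w = X m - s y * Y m) with hF'
    have hmF' : m ∈ F' := Finset.mem_filter.2 ⟨hm, rfl⟩
    obtain ⟨b, hb, hbmax⟩ := Finset.exists_max_image F' (fun w => ε * Y w) ⟨m, hmF'⟩
    have hbF : b ∈ F := (Finset.mem_filter.1 hb).1
    have hbU : X b - s y * Y b = X m - s y * Y m := (Finset.mem_filter.1 hb).2
    have hlt : ∀ w ∈ F, X w - s y * Y w = X b - s y * Y b → w ≠ b → ε * Y w < ε * Y b := by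
      intro w hw hwU hwb
      have hwF' : w ∈ F' := Finset.mem_filter.2 ⟨hw, hwU.trans hbU⟩
      refine lt_of_le_of_ne (hbmax w hwF') (fun h => hwb ?_)
      have hY : Y w = Y b := mul_left_cancel₀ hε0 h
      have hX : X w = X b := by
        rw [hY] at hwU
        linarith
      exact hinj w hw b hbF hX hY
    refine ⟨b, fun _ _ => ⟨hbF, ?_, hlt, ?_⟩⟩
    · intro w hw
      rw [hbU]
      exact hmax w hw
    · have heven := hev y hy (X m - s y * Y m)
      have hpos : 0 < F'.card := Finset.card_pos.2 ⟨m, hmF'⟩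
      have h1 : 1 < F'.card := by
        rcases heven with ⟨k, hk⟩
        change F'.card = k + k at hk
        omega
      obtain ⟨t, ht, htb⟩ := Finset.exists_mem_ne h1 b
      have htF : t ∈ F := (Finset.mem_filter.1 ht).1
      have htU : X t - s y * Y t = X b - s y * Y b := (Finset.mem_filter.1 ht).2.trans hbU.symm
      exact ⟨t, htF, htU, hlt t htF htU htb⟩
  choose bf hbf using hex
  -- the direction
  have hc : ∀ y ∈ B, ∀ ε : ℝ, (ε = 1 ∨ ε = -1) → ∃ c : ℝ, (∀ i ∈ A, s i ≠ c) ∧
      ∀ w ∈ F, w ≠ bf y ε → ε * (X w - c * Y w) < ε * (X (bf y ε) - c * Y (bf y ε)) := by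
    intro y hy ε hε
    obtain ⟨hbF, hmax, hlt, _⟩ := hbf y ε hy hε
    set b := bf y ε
    have e1 : ∀ᶠ δ : ℝ in 𝓝[>] 0, ∀ w ∈ F, w ≠ b →
        0 < (ε * (X b - s y * Y b) - ε * (X w - s y * Y w)) + δ * (ε * Y b - ε * Y w) := by
      rw [Filter.eventually_all_finset]
      intro w hw
      by_cases hwb : w = b
      · exact Filter.Eventually.of_forall (fun δ h => absurd hwb h)
      rcases (hmax w hw).lt_or_eq with h | h
      · have hcont : Continuous (fun δ : ℝ => (ε * (X b - s y * Y b) - ε * (X w - s y * Y w)) +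
            δ * (ε * Y b - ε * Y w)) := by fun_prop
        have h0 : (0 : ℝ) < (fun δ : ℝ => (ε * (X b - s y * Y b) - ε * (X w - s y * Y w)) +
            δ * (ε * Y b - ε * Y w)) 0 := by
          simp only [zero_mul, add_zero]
          linarith
        have := (hcont.tendsto 0).eventually (lt_mem_nhds h0)
        exact (this.filter_mono nhdsWithin_le_nhds).mono (fun δ hδ _ => hδ)
      · have hε0 : ε ≠ 0 := by
          rcases hε with h | h <;> rw [h] <;> norm_num
        have hU : X w - s y * Y w = X b - s y * Y b := mul_left_cancel₀ hε0 h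
        have hlt' := hlt w hw hU hwb
        filter_upwards [self_mem_nhdsWithin] with δ hδ _
        have hδ' : (0 : ℝ) < δ := hδ
        have := mul_pos hδ' (sub_pos.2 hlt')
        rw [h]
        linarith
    have e2 : ∀ᶠ δ : ℝ in 𝓝[>] 0, ∀ i ∈ A, s i ≠ s y - δ := by
      rw [Filter.eventually_all_finset]
      intro i _
      by_cases hi : s y - s i = 0
      · filter_upwards [self_mem_nhdsWithin] with δ hδ h
        have hδ' : (0 : ℝ) < δ := hδ
        linarith
      · have : ∀ᶠ δ : ℝ in 𝓝 0, δ ≠ s y - s i :=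
          isOpen_ne.mem_nhds (fun h => hi h.symm)
        exact (this.filter_mono nhdsWithin_le_nhds).mono (fun δ hδ h => hδ (by linarith))
    obtain ⟨δ, h1, h2⟩ := (e1.and e2).exists
    refine ⟨s y - δ, h2, fun w hw hwb => ?_⟩
    have := h1 w hw hwb
    nlinarith [this]
  -- distinctness for different directions
  have key : ∀ y ∈ B, ∀ y' ∈ B, ∀ ε ε' : ℝ, (ε = 1 ∨ ε = -1) → (ε' = 1 ∨ ε' = -1) →
      bf y ε = bf y' ε' → 0 ≤ ε * ε' * (s y' - s y) := by
    intro y hy y' hy' ε ε' hε hε' hb
    obtain ⟨_, hmax, _, _⟩ := hbf y ε hy hε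
    obtain ⟨_, _, _, t, ht, htU, htY⟩ := hbf y' ε' hy' hε'
    rw [← hb] at htU htY
    have h1 := hmax t ht
    set b := bf y ε
    have h2 : ε * ((s y' - s y) * (Y t - Y b)) ≤ 0 := by
      have : X t - X b = s y' * (Y t - Y b) := by linarith
      have h3 : (s y' - s y) * (Y t - Y b) = (X t - s y * Y t) - (X b - s y * Y b) := by
        have : (s y' - s y) * (Y t - Y b) = s y' * (Y t - Y b) - s y * (Y t - Y b) := by ring
        linarith
      rw [h3]
      linarith
    by_contra hneg
    push Not at hneg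
    have h4 : 0 < Y b * ε' - Y t * ε' := by linarith
    have hsq : ε' * ε' = 1 := by
      rcases hε' with h | h <;> rw [h] <;> norm_num
    have h5 : ε * ((s y' - s y) * (Y t - Y b)) =
        -(ε * ε' * (s y' - s y)) * (Y b * ε' - Y t * ε') := by
      have : -(ε * ε' * (s y' - s y)) * (Y b * ε' - Y t * ε') =
        (ε' * ε') * (ε * ((s y' - s y) * (Y t - Y b))) := by ring
      rw [this, hsq, one_mul]
    have h6 : 0 < -(ε * ε' * (s y' - s y)) * (Y b * ε' - Y t * ε') :=
      mul_pos (by linarith) h4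
    linarith
  have hdist : ∀ y ∈ B, ∀ y' ∈ B, ∀ ε ε' : ℝ, (ε = 1 ∨ ε = -1) → (ε' = 1 ∨ ε' = -1) →
      bf y ε = bf y' ε' → y = y' := by
    intro y hy y' hy' ε ε' hε hε' hb
    have h1 := key y hy y' hy' ε ε' hε hε' hb
    have h2 := key y' hy' y hy ε' ε hε' hε hb.symm
    apply hs y (hBA hy) y' (hBA hy')
    have h3 : ε * ε' * (s y' - s y) = 0 := by
      have : ε' * ε * (s y - s y') = -(ε * ε' * (s y' - s y)) := by ring
      linarith
    have h4 : ε * ε' ≠ 0 := by
      rcases hε with h | h <;> rcases hε' with h' | h' <;> rw [h, h'] <;> norm_num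
    have h5 := (mul_eq_zero.1 h3).resolve_left h4
    linarith
  have hpm : ∀ y ∈ B, bf y 1 ≠ bf y (-1) := by
    intro y hy hb
    obtain ⟨hbF, hmax, _, _⟩ := hbf y 1 hy (Or.inl rfl)
    obtain ⟨_, hmax', _, _⟩ := hbf y (-1) hy (Or.inr rfl)
    rw [← hb] at hmax'
    set b := bf y 1
    have hconst : ∀ w ∈ F, X w - s y * Y w = X b - s y * Y b := by
      intro w hw
      have h1 := hmax w hw
      have h2 := hmax' w hw
      linarith
    obtain ⟨y', hy', hne⟩ := Finset.exists_mem_ne (by omega : 1 < B.card) y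
    have hsne : s y' ≠ s y := fun h => hne (hs y' (hBA hy') y (hBA hy) h)
    have heq : F.filter (fun w => X w - s y' * Y w = X b - s y' * Y b) = {b} := by
      ext w
      simp only [Finset.mem_filter, Finset.mem_singleton]
      constructor
      · rintro ⟨hw, hw'⟩
        have h1 := hconst w hw
        have h2 : (s y' - s y) * (Y w - Y b) = 0 := by
          have : (s y' - s y) * (Y w - Y b) = (X w - s y * Y w) - (X b - s y * Y b)
            - ((X w - s y' * Y w) - (X b - s y' * Y b)) := by ring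
          rw [this, h1, hw']
          ring
        have hY : Y w = Y b := by
          have := (mul_eq_zero.1 h2).resolve_left (sub_ne_zero.2 hsne)
          linarith
        have hX : X w = X b := by
          rw [hY] at h1
          linarith
        exact hinj w hw b hbF hX hY
      · rintro rfl
        exact ⟨hbF, rfl⟩
    have := hev y' hy' (X b - s y' * Y b)
    rw [heq, Finset.card_singleton] at this
    exact absurd this (by decide)
  -- the set
  let e : Bool → ℝ := fun p => if p then 1 else -1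
  have he : ∀ p, e p = 1 ∨ e p = -1 := by
    intro p
    cases p
    · right; simp [e]
    · left; simp [e]
  refine ⟨(B ×ˢ (Finset.univ : Finset Bool)).image (fun p => bf p.1 (e p.2)), ?_, ?_, ?_⟩
  · intro b hb
    obtain ⟨p, hp, rfl⟩ := Finset.mem_image.1 hb
    exact (hbf p.1 (e p.2) (Finset.mem_product.1 hp).1 (he p.2)).1
  · rw [Finset.card_image_of_injOn, Finset.card_product]
    · simp [mul_comm]
    · rintro ⟨y, p⟩ hp ⟨y', p'⟩ hp' hb
      have hy : y ∈ B := (Finset.mem_product.1 hp).1
      have hy' : y' ∈ B := (Finset.mem_product.1 hp').1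
      simp only at hb
      have hyy : y = y' := hdist y hy y' hy' _ _ (he p) (he p') hb
      subst hyy
      have : p = p' := by
        cases p <;> cases p'
        · rfl
        · exfalso
          simp only [e] at hb
          exact hpm y hy (by simpa using hb.symm)
        · exfalso
          simp only [e] at hb
          exact hpm y hy (by simpa using hb)
        · rfl
      rw [this]
  · intro b hb
    obtain ⟨p, hp, rfl⟩ := Finset.mem_image.1 hb
    obtain ⟨c, h1, h2⟩ := hc p.1 (Finset.mem_product.1 hp).1 (e p.2) (he p.2)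
    exact ⟨c, e p.2, he p.2, h1, h2⟩

end Pool.Agent.Dirac86.Few
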