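import Mathlib
import Pool.Agent.Dirac80.Defs
import Pool.Agent.Dirac80.Parity
import Pool.Agent.Dirac86.Few.Defs
import Pool.Agent.Dirac86.Few.Gap
import Pool.Agent.Dirac86.Few.Heads

/-!
# Dirac bound with few even-rich lines: the points in extreme position
-/

set_option autoImplicit false
open Finset Classical

namespace Pool.Agent.Dirac86.Few

open Pool.Agent.Dirac80 (connectingLines mem_connecting connecting_eq Pl area)

namespace Hu

/-- the coordinate along the line `a0 a1` -/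
noncomputable def sc (a0 a1 p : Pl) : ℝ := (p 0 - a0 0) * (a1 0 - a0 0) + (p 1 - a0 1) * (a1 1 - a0 1)

noncomputable def NN (a0 a1 : Pl) : ℝ := (a1 0 - a0 0) ^ 2 + (a1 1 - a0 1) ^ 2

noncomputable def XX (a0 a1 p : Pl) : ℝ := sc a0 a1 p / area a0 a1 p

noncomputable def YY (a0 a1 p : Pl) : ℝ := 1 / area a0 a1 p

variable {a0 a1 : Pl}

theorem NN_pos (h : a0 ≠ a1) : 0 < NN a0 a1 := by
  unfold NN
  by_contra hcon
  have h1 := sq_nonneg (a1 0 - a0 0)
  have h2 := sq_nonneg (a1 1 - a0 1)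
  have h3 : (a1 0 - a0 0) ^ 2 = 0 := by linarith
  have h4 : (a1 1 - a0 1) ^ 2 = 0 := by linarith
  rw [sq_eq_zero_iff] at h3 h4
  exact h (Pool.Agent.Dirac80.pl_ext (by linarith) (by linarith))

theorem area_NN (p q r : Pl) : area p q r * NN a0 a1 =
    (sc a0 a1 q - sc a0 a1 p) * (area a0 a1 r - area a0 a1 p) -
      (area a0 a1 q - area a0 a1 p) * (sc a0 a1 r - sc a0 a1 p) := by
  unfold NN sc area
  ring

theorem area_zero_iff (h : a0 ≠ a1) (p q r : Pl) : area p q r = 0 ↔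
    (sc a0 a1 q - sc a0 a1 p) * (area a0 a1 r - area a0 a1 p) -
      (area a0 a1 q - area a0 a1 p) * (sc a0 a1 r - sc a0 a1 p) = 0 := by
  rw [← area_NN, mul_eq_zero, or_iff_left (NN_pos h).ne']

theorem ext_sc (h : a0 ≠ a1) {p q : Pl} (h1 : sc a0 a1 p = sc a0 a1 q)
    (h2 : area a0 a1 p = area a0 a1 q) : p = q := by
  have hN := (NN_pos h).ne'
  apply Pool.Agent.Dirac80.pl_ext
  · have h3 : NN a0 a1 * (p 0 - q 0) = 0 := by
      unfold NN
      unfold sc at h1
      unfold area at h2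
      linear_combination (a1 0 - a0 0) * h1 - (a1 1 - a0 1) * h2
    rcases mul_eq_zero.1 h3 with h4 | h4
    · exact absurd h4 hN
    · linarith
  · have h3 : NN a0 a1 * (p 1 - q 1) = 0 := by
      unfold NN
      unfold sc at h1
      unfold area at h2
      linear_combination (a1 1 - a0 1) * h1 + (a1 0 - a0 0) * h2
    rcases mul_eq_zero.1 h3 with h4 | h4
    · exact absurd h4 hN
    · linarith

theorem ext_XY (h : a0 ≠ a1) {p q : Pl} (hp : area a0 a1 p ≠ 0) (hq : area a0 a1 q ≠ 0)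
    (h1 : XX a0 a1 p = XX a0 a1 q) (h2 : YY a0 a1 p = YY a0 a1 q) : p = q := by
  unfold YY at h2
  rw [div_eq_div_iff hp hq, one_mul, one_mul] at h2
  unfold XX at h1
  rw [div_eq_div_iff hp hq, h2] at h1
  exact ext_sc h (mul_right_cancel₀ hp h1) h2.symm

/-- lines through a point of `A` -/
theorem col1 (h : a0 ≠ a1) {a w w' : Pl} (ha : area a0 a1 a = 0) (hw : area a0 a1 w ≠ 0)
    (hw' : area a0 a1 w' ≠ 0) : area a w w' = 0 ↔
      XX a0 a1 w - sc a0 a1 a * YY a0 a1 w = XX a0 a1 w' - sc a0 a1 a * YY a0 a1 w' := by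
  rw [area_zero_iff h, ha]
  unfold XX YY
  have h1 : sc a0 a1 w / area a0 a1 w - sc a0 a1 a * (1 / area a0 a1 w) =
      (sc a0 a1 w - sc a0 a1 a) / area a0 a1 w := by ring
  have h2 : sc a0 a1 w' / area a0 a1 w' - sc a0 a1 a * (1 / area a0 a1 w') =
      (sc a0 a1 w' - sc a0 a1 a) / area a0 a1 w' := by ring
  rw [h1, h2, div_eq_div_iff hw hw']
  constructor
  · intro h3
    linarith
  · intro h3
    linarith

/-- lines off `A` -/
theorem col2 (h : a0 ≠ a1) {p q r : Pl} (hp : area a0 a1 p ≠ 0) (hq : area a0 a1 q ≠ 0)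
    (hr : area a0 a1 r ≠ 0) : area p q r = 0 ↔
      (XX a0 a1 q - XX a0 a1 p) * (YY a0 a1 r - YY a0 a1 p) -
        (YY a0 a1 q - YY a0 a1 p) * (XX a0 a1 r - XX a0 a1 p) = 0 := by
  rw [area_zero_iff h]
  unfold XX YY
  have key : (sc a0 a1 q / area a0 a1 q - sc a0 a1 p / area a0 a1 p) * (1 / area a0 a1 r - 1 / area a0 a1 p) -
        (1 / area a0 a1 q - 1 / area a0 a1 p) * (sc a0 a1 r / area a0 a1 r - sc a0 a1 p / area a0 a1 p) =
      -((sc a0 a1 q - sc a0 a1 p) * (area a0 a1 r - area a0 a1 p) -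
      (area a0 a1 q - area a0 a1 p) * (sc a0 a1 r - sc a0 a1 p)) / (area a0 a1 p * area a0 a1 q * area a0 a1 r) := by
    field_simp
    ring
  rw [key, div_eq_zero_iff, neg_eq_zero, or_iff_left (mul_ne_zero (mul_ne_zero hp hq) hr)]

/-- the line through two points -/
noncomputable def ln (S : Finset Pl) (p q : Pl) : Finset Pl := S.filter (fun r => area p q r = 0)

theorem mem_ln {S : Finset Pl} {p q r : Pl} : r ∈ ln S p q ↔ r ∈ S ∧ area p q r = 0 := by
  unfold ln
  rw [mem_filter]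

theorem area_left (p q : Pl) : area p q p = 0 := by unfold area; ring

theorem area_right (p q : Pl) : area p q q = 0 := by unfold area; ring

theorem ln_mem {S : Finset Pl} {p q : Pl} (hp : p ∈ S) (hq : q ∈ S) (h : p ≠ q) :
    ln S p q ∈ connectingLines S := by
  rw [mem_connecting]
  have hpm : p ∈ ln S p q := mem_ln.2 ⟨hp, area_left p q⟩
  have hqm : q ∈ ln S p q := mem_ln.2 ⟨hq, area_right p q⟩
  refine ⟨fun x hx => (mem_ln.1 hx).1, ?_, ?_, ?_⟩
  · have : 1 < (ln S p q).card := one_lt_card.mpr ⟨_, hpm, _, hqm, h⟩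
    omega
  · exact Pool.Agent.Dirac80.collinear_of_area h _ (by exact_mod_cast hpm)
      (fun r hr => (mem_ln.1 (by exact_mod_cast hr)).2)
  · intro r hr hr'
    have hsub : affineSpan ℝ ((ln S p q : Finset Pl) : Set Pl) ≤ affineSpan ℝ ({p, q} : Set Pl) := by
      rw [affineSpan_le]
      intro x hx
      exact Pool.Agent.Dirac80.span_of_area h (mem_ln.1 (by exact_mod_cast hx)).2
    exact mem_ln.2 ⟨hr, Pool.Agent.Dirac80.area_of_span (hsub hr')⟩

theorem area_swap {p q r : Pl} : area p q r = 0 ↔ area p r q = 0 := by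
  have : area p q r = -area p r q := by unfold area; ring
  rw [this, neg_eq_zero]

/-- the lines through a point which is on no other even line -/
theorem even_off {S A : Finset Pl} (hA : A ∈ connectingLines S) (hE : Even A.card) {a0 a1 : Pl}
    (h0 : a0 ∈ A) (h1 : a1 ∈ A) (h01 : a0 ≠ a1) {y : Pl} (hy : y ∈ A) (hy1 : evl S y = 1) (r : ℝ) :
    Even ((S \ A).filter (fun w => XX a0 a1 w - sc a0 a1 y * YY a0 a1 w = r)).card := by
  have hAe := connecting_eq hA h0 h1 h01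
  have hAS : A ⊆ S := (mem_connecting.1 hA).1
  have hA0 : ∀ x ∈ A, area a0 a1 x = 0 := by
    intro x hx
    rw [hAe, mem_filter] at hx
    exact hx.2
  have hF0 : ∀ x ∈ S \ A, area a0 a1 x ≠ 0 := by
    intro x hx h
    rw [mem_sdiff] at hx
    apply hx.2
    rw [hAe, mem_filter]
    exact ⟨hx.1, h⟩
  rcases ((S \ A).filter (fun w => XX a0 a1 w - sc a0 a1 y * YY a0 a1 w = r)).eq_empty_or_nonempty
    with h | ⟨w0, hw0⟩
  · rw [h, card_empty]
    exact ⟨0, rfl⟩
  rw [mem_filter] at hw0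
  obtain ⟨hw0F, hw0r⟩ := hw0
  have hw0' := mem_sdiff.1 hw0F
  have hyw0 : y ≠ w0 := fun h => hw0'.2 (h ▸ hy)
  have hT := ln_mem (hAS hy) hw0'.1 hyw0
  have hyT : y ∈ ln S y w0 := mem_ln.2 ⟨hAS hy, area_left _ _⟩
  have hw0T : w0 ∈ ln S y w0 := mem_ln.2 ⟨hw0'.1, area_right _ _⟩
  have hTA : ln S y w0 ≠ A := fun h => hw0'.2 (h ▸ hw0T)
  have hodd : ¬ Even (ln S y w0).card := by
    intro hev
    have h2 : ({A, ln S y w0} : Finset (Finset Pl)).card ≤ evl S y := by
      unfold evl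
      refine card_le_card ?_
      intro T hT'
      rw [mem_insert, mem_singleton] at hT'
      rcases hT' with rfl | rfl
      · exact mem_filter.2 ⟨hA, hE, hy⟩
      · exact mem_filter.2 ⟨hT, hev, hyT⟩
    rw [card_pair hTA.symm] at h2
    omega
  have hfe : (S \ A).filter (fun w => XX a0 a1 w - sc a0 a1 y * YY a0 a1 w = r) = (ln S y w0).erase y := by
    ext w
    rw [mem_filter, mem_erase, mem_ln]
    constructor
    · rintro ⟨hw, hwr⟩
      have hw' := mem_sdiff.1 hw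
      refine ⟨fun h => hw'.2 (h ▸ hy), hw'.1, ?_⟩
      rw [col1 h01 (hA0 y hy) (hF0 w0 hw0F) (hF0 w hw), hw0r, hwr]
    · rintro ⟨hwy, hwS, hwa⟩
      have hwA : w ∉ A := by
        intro hwA
        apply hw0'.2
        rw [connecting_eq hA hy hwA (Ne.symm hwy), mem_filter]
        exact ⟨hw0'.1, area_swap.1 hwa⟩
      have hw : w ∈ S \ A := mem_sdiff.2 ⟨hwS, hwA⟩
      refine ⟨hw, ?_⟩
      rw [col1 h01 (hA0 y hy) (hF0 w0 hw0F) (hF0 w hw), hw0r] at hwa
      exact hwa.symm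
  rw [hfe, card_erase_of_mem hyT]
  rw [Nat.not_even_iff_odd] at hodd
  obtain ⟨m, hm⟩ := hodd
  rw [hm, Nat.add_sub_cancel]
  exact even_two_mul m

/-- the even lines through an extreme point -/
theorem even_at {S A : Finset Pl} (hA : A ∈ connectingLines S) {a0 a1 : Pl}
    (h0 : a0 ∈ A) (h1 : a1 ∈ A) (h01 : a0 ≠ a1) {b : Pl} (hb : b ∈ S \ A) {c ε : ℝ} (hε : ε = 1 ∨ ε = -1)
    (hc : ∀ i ∈ A, sc a0 a1 i ≠ c)
    (hmax : ∀ w ∈ S \ A, w ≠ b → ε * (XX a0 a1 w - c * YY a0 a1 w) < ε * (XX a0 a1 b - c * YY a0 a1 b))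
    (G : Finset ℝ) (hG : ∀ σ ∈ G, (∀ i ∈ A, ε / (sc a0 a1 i - c) ≠ σ) ∧
      ∃ U : Finset Pl, Odd U.card ∧ ∀ w, w ∈ U ↔ (w ∈ S \ A ∧ w ≠ b ∧ YY a0 a1 b - YY a0 a1 w =
        σ * (ε * (XX a0 a1 b - c * YY a0 a1 b) - ε * (XX a0 a1 w - c * YY a0 a1 w)))) :
    G.card ≤ evl S b := by
  have hAe := connecting_eq hA h0 h1 h01
  have hAS : A ⊆ S := (mem_connecting.1 hA).1
  have hA0 : ∀ x ∈ A, area a0 a1 x = 0 := by
    intro x hx
    rw [hAe, mem_filter] at hx
    exact hx.2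
  have hF0 : ∀ x ∈ S \ A, area a0 a1 x ≠ 0 := by
    intro x hx h
    rw [mem_sdiff] at hx
    apply hx.2
    rw [hAe, mem_filter]
    exact ⟨hx.1, h⟩
  have hbS := (mem_sdiff.1 hb).1
  have hε2 : ε * ε = 1 := by rcases hε with rfl | rfl <;> norm_num
  -- a point on each of the lines
  have hex : ∀ σ ∈ G, ∃ w ∈ S \ A, w ≠ b ∧ YY a0 a1 b - YY a0 a1 w =
        σ * (ε * (XX a0 a1 b - c * YY a0 a1 b) - ε * (XX a0 a1 w - c * YY a0 a1 w)) := by
    intro σ hσ
    obtain ⟨U, h2, h4⟩ := (hG σ hσ).2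
    have h3 := card_pos.1 h2.pos
    obtain ⟨w, hw⟩ := h3
    rw [h4] at hw
    exact ⟨w, hw.1, hw.2.1, hw.2.2⟩
  choose! q hqF hqb hqe using hex
  -- the description of the lines
  have key : ∀ σ ∈ G, ∀ r ∈ S, area b (q σ) r = 0 ↔ r = b ∨ (r ∈ S \ A ∧ r ≠ b ∧ YY a0 a1 b - YY a0 a1 r =
        σ * (ε * (XX a0 a1 b - c * YY a0 a1 b) - ε * (XX a0 a1 r - c * YY a0 a1 r))) := by
    intro σ hσ r hr
    have e1 := hqe σ hσ
    have m1 := hmax (q σ) (hqF σ hσ) (hqb σ hσ)
    constructor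
    · intro har
      by_cases hrb : r = b
      · exact Or.inl hrb
      · right
        have hrA : r ∉ A := by
          intro hrA
          apply (hG σ hσ).1 r hrA
          have h2 : area r b (q σ) = 0 := by
            have : area r b (q σ) = area b (q σ) r := by unfold area; ring
            rw [this, har]
          rw [col1 h01 (hA0 r hrA) (hF0 b hb) (hF0 _ (hqF σ hσ))] at h2
          have h3 := hc r hrA
          have h4 : sc a0 a1 r - c ≠ 0 := sub_ne_zero.2 h3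
          -- `u = P b - P q`
          have h5 : XX a0 a1 b - XX a0 a1 (q σ) = sc a0 a1 r * (YY a0 a1 b - YY a0 a1 (q σ)) := by linarith
          have h6 : (YY a0 a1 b - YY a0 a1 (q σ)) * (1 - σ * ε * (sc a0 a1 r - c)) = 0 := by
            linear_combination e1 + σ * ε * h5
          rcases mul_eq_zero.1 h6 with h7 | h7
          · exfalso
            rw [h7, mul_zero] at h5
            have h8 : XX a0 a1 b = XX a0 a1 (q σ) := by linarith
            have h9 : YY a0 a1 b = YY a0 a1 (q σ) := by linarith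
            exact hqb σ hσ (ext_XY h01 (hF0 _ (hqF σ hσ)) (hF0 b hb) h8.symm h9.symm)
          · rw [div_eq_iff h4]
            have h8 : σ * ε * (sc a0 a1 r - c) = 1 := by linarith
            calc ε = ε * (σ * ε * (sc a0 a1 r - c)) := by rw [h8, mul_one]
              _ = (ε * ε) * σ * (sc a0 a1 r - c) := by ring
              _ = σ * (sc a0 a1 r - c) := by rw [hε2, one_mul]
        have hrF : r ∈ S \ A := mem_sdiff.2 ⟨hr, hrA⟩
        refine ⟨hrF, hrb, ?_⟩
        rw [col2 h01 (hF0 b hb) (hF0 _ (hqF σ hσ)) (hF0 r hrF)] at har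
        have h2 : (XX a0 a1 (q σ) - XX a0 a1 b) - c * (YY a0 a1 (q σ) - YY a0 a1 b) ≠ 0 := by
          intro h3
          have h4 : XX a0 a1 (q σ) - c * YY a0 a1 (q σ) = XX a0 a1 b - c * YY a0 a1 b := by linarith
          rw [h4] at m1
          exact lt_irrefl _ m1
        apply mul_left_cancel₀ h2
        linear_combination ((XX a0 a1 r - XX a0 a1 b) - c * (YY a0 a1 r - YY a0 a1 b)) * e1 - har
    · rintro (rfl | ⟨hrF, hrb, e2⟩)
      · exact area_left _ _
      · rw [col2 h01 (hF0 b hb) (hF0 _ (hqF σ hσ)) (hF0 r hrF)]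
        have h2 : ((XX a0 a1 (q σ) - XX a0 a1 b) * (YY a0 a1 r - YY a0 a1 b) -
            (YY a0 a1 (q σ) - YY a0 a1 b) * (XX a0 a1 r - XX a0 a1 b)) * (σ * ε) = 0 := by
          linear_combination (YY a0 a1 r - YY a0 a1 b) * e1 - (YY a0 a1 (q σ) - YY a0 a1 b) * e2
        have h3 : ((XX a0 a1 (q σ) - XX a0 a1 b) * (YY a0 a1 r - YY a0 a1 b) -
            (YY a0 a1 (q σ) - YY a0 a1 b) * (XX a0 a1 r - XX a0 a1 b)) * (1 + σ * ε * c) = 0 := by
          linear_combination (XX a0 a1 r - XX a0 a1 b) * e1 - (XX a0 a1 (q σ) - XX a0 a1 b) * e2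
        linear_combination h3 - c * h2
  unfold evl
  refine card_le_card_of_injOn (fun σ => ln S b (q σ)) ?_ ?_
  · intro σ hσ
    have hσ : σ ∈ G := by exact_mod_cast hσ
    have hqS := (mem_sdiff.1 (hqF σ hσ)).1
    rw [mem_coe, mem_filter]
    refine ⟨ln_mem hbS hqS (hqb σ hσ).symm, ?_, mem_ln.2 ⟨hbS, area_left _ _⟩⟩
    obtain ⟨U, hU, hUm⟩ := (hG σ hσ).2
    have h2 : ln S b (q σ) = insert b U := by
      ext r
      rw [mem_ln, mem_insert, hUm]
      constructor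
      · rintro ⟨hr, har⟩
        exact (key σ hσ r hr).1 har
      · intro h3
        have hr : r ∈ S := by
          rcases h3 with rfl | h3
          · exact hbS
          · exact (mem_sdiff.1 h3.1).1
        exact ⟨hr, (key σ hσ r hr).2 h3⟩
    show Even (ln S b (q σ)).card
    rw [h2, card_insert_of_notMem]
    · exact hU.add_one
    · rw [hUm]
      rintro ⟨-, h3, -⟩
      exact h3 rfl
  · intro σ hσ σ' hσ' heq
    have hσ : σ ∈ G := by exact_mod_cast hσ
    have hσ' : σ' ∈ G := by exact_mod_cast hσ'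
    have heq : ln S b (q σ) = ln S b (q σ') := heq
    have hqS := (mem_sdiff.1 (hqF σ' hσ')).1
    have h2 : q σ' ∈ ln S b (q σ) := by
      rw [heq]
      exact mem_ln.2 ⟨hqS, area_right _ _⟩
    have h3 := (key σ hσ _ hqS).1 (mem_ln.1 h2).2
    rcases h3 with h3 | ⟨-, -, h3⟩
    · exact absurd h3 (hqb σ' hσ')
    · have h4 := hqe σ' hσ'
      have m1 := hmax (q σ') (hqF σ' hσ') (hqb σ' hσ')
      rw [h3] at h4
      exact mul_right_cancel₀ (sub_pos.2 m1).ne' h4

/-- three points in extreme position are not on a line -/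
theorem three {x1 y1 x2 y2 x3 y3 : ℝ} (h : (x2 - x1) * (y3 - y1) - (y2 - y1) * (x3 - x1) = 0)
    {e1 c1 e2 c2 e3 c3 : ℝ}
    (h12 : e1 * (x2 - c1 * y2) < e1 * (x1 - c1 * y1)) (h13 : e1 * (x3 - c1 * y3) < e1 * (x1 - c1 * y1))
    (h21 : e2 * (x1 - c2 * y1) < e2 * (x2 - c2 * y2)) (h23 : e2 * (x3 - c2 * y3) < e2 * (x2 - c2 * y2))
    (h31 : e3 * (x1 - c3 * y1) < e3 * (x3 - c3 * y3)) (h32 : e3 * (x2 - c3 * y2) < e3 * (x3 - c3 * y3)) :
    False := by
  obtain ⟨p1, hp1⟩ : ∃ p, p = e1 * ((x2 - x1) - c1 * (y2 - y1)) := ⟨_, rfl⟩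
  obtain ⟨q1, hq1⟩ : ∃ p, p = e1 * ((x3 - x1) - c1 * (y3 - y1)) := ⟨_, rfl⟩
  obtain ⟨p2, hp2⟩ : ∃ p, p = e2 * ((x2 - x1) - c2 * (y2 - y1)) := ⟨_, rfl⟩
  obtain ⟨q2, hq2⟩ : ∃ p, p = e2 * ((x3 - x1) - c2 * (y3 - y1)) := ⟨_, rfl⟩
  obtain ⟨p3, hp3⟩ : ∃ p, p = e3 * ((x2 - x1) - c3 * (y2 - y1)) := ⟨_, rfl⟩
  obtain ⟨q3, hq3⟩ : ∃ p, p = e3 * ((x3 - x1) - c3 * (y3 - y1)) := ⟨_, rfl⟩
  have r12 : p1 * q2 = p2 * q1 := by
    rw [hp1, hq1, hp2, hq2]
    linear_combination (e1 * e2 * (c1 - c2)) * h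
  have r13 : p1 * q3 = p3 * q1 := by
    rw [hp1, hq1, hp3, hq3]
    linear_combination (e1 * e3 * (c1 - c3)) * h
  have r23 : p2 * q3 = p3 * q2 := by
    rw [hp2, hq2, hp3, hq3]
    linear_combination (e2 * e3 * (c2 - c3)) * h
  have a1 : p1 < 0 := by rw [hp1]; nlinarith
  have a2 : q1 < 0 := by rw [hq1]; nlinarith
  have a3 : 0 < p2 := by rw [hp2]; nlinarith
  have a4 : q2 < p2 := by rw [hp2, hq2]; nlinarith
  have a5 : 0 < q3 := by rw [hq3]; nlinarith
  have a6 : p3 < q3 := by rw [hp3, hq3]; nlinarith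
  have b1 : p2 * q1 < 0 := mul_neg_of_pos_of_neg a3 a2
  have b2 : 0 < q2 := by
    by_contra hcon
    have := mul_nonneg_of_nonpos_of_nonpos a1.le (not_lt.1 hcon)
    linarith
  have b3 : p1 * q3 < 0 := mul_neg_of_neg_of_pos a1 a5
  have b4 : 0 < p3 := by
    by_contra hcon
    have := mul_nonneg_of_nonpos_of_nonpos (not_lt.1 hcon) a2.le
    linarith
  have b5 : p3 * q2 < q3 * p2 := mul_lt_mul a6 a4.le b2 a5.le
  linarith

end Hu

open Hu

/-- M3. -/
theorem hull_set (S : Finset Pl) (hn : Even S.card) (hS : ¬ Collinear ℝ (S : Set Pl))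
    {A : Finset Pl} (hA : A ∈ connectingLines S) (hE : Even A.card)
    (hβ : A.card < 2 * (A.filter (fun x => evl S x = 1)).card) (hM : 4 ≤ A.card) :
    ∃ V ⊆ S \ A, V.card = 2 * (A.filter (fun x => evl S x = 1)).card ∧
      (∀ b ∈ V, 2 * (A.filter (fun x => evl S x = 1)).card ≤ evl S b + A.card + 1) ∧
      ∀ T ∈ connectingLines S, (V ∩ T).card ≤ 2 := by
  have hmA := mem_connecting.1 hA
  obtain ⟨a0, h0, a1, h1, h01⟩ := one_lt_card.1 (by omega : 1 < A.card)
  have hAe := connecting_eq hA h0 h1 h01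
  have hA0 : ∀ x ∈ A, area a0 a1 x = 0 := by
    intro x hx
    rw [hAe, mem_filter] at hx
    exact hx.2
  have hF0 : ∀ x ∈ S \ A, area a0 a1 x ≠ 0 := by
    intro x hx h
    rw [mem_sdiff] at hx
    apply hx.2
    rw [hAe, mem_filter]
    exact ⟨hx.1, h⟩
  have hF : (S \ A).Nonempty := by
    rw [nonempty_iff_ne_empty]
    intro h
    rw [sdiff_eq_empty_iff_subset] at h
    exact hS (hmA.2.2.1.subset (by exact_mod_cast h))
  have hsinj : ∀ i ∈ A, ∀ j ∈ A, sc a0 a1 i = sc a0 a1 j → i = j := by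
    intro i hi j hj h
    exact ext_sc h01 h (by rw [hA0 i hi, hA0 j hj])
  have hev : ∀ y ∈ A.filter (fun x => evl S x = 1), ∀ r : ℝ,
      Even ((S \ A).filter (fun w => XX a0 a1 w - sc a0 a1 y * YY a0 a1 w = r)).card := by
    intro y hy r
    rw [mem_filter] at hy
    exact even_off hA hE h0 h1 h01 hy.1 hy.2 r
  obtain ⟨V, hVF, hVc, hV⟩ := heads (S \ A) (XX a0 a1) (YY a0 a1)
    (fun i hi j hj h h' => ext_XY h01 (hF0 i hi) (hF0 j hj) h h') hF A
    (A.filter (fun x => evl S x = 1)) (filter_subset _ _) (sc a0 a1) hsinj (by omega) hev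
  refine ⟨V, hVF, hVc, ?_, ?_⟩
  · intro b hb
    obtain ⟨c, ε, hε, hc, hmax⟩ := hV b hb
    have hε2 : ε * ε = 1 := by rcases hε with rfl | rfl <;> norm_num
    have hε0 : ε ≠ 0 := by rcases hε with rfl | rfl <;> norm_num
    obtain ⟨G, hG1, hG2⟩ := gap_count (S \ A) (YY a0 a1)
      (fun w => ε * (XX a0 a1 w - c * YY a0 a1 w)) b (hVF hb) hmax A
      (A.filter (fun x => evl S x = 1)) (filter_subset _ _) (fun i => ε / (sc a0 a1 i - c))
      (by
        intro i hi j hj h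
        have h2 := sub_ne_zero.2 (hc i hi)
        have h3 := sub_ne_zero.2 (hc j hj)
        have h : ε / (sc a0 a1 i - c) = ε / (sc a0 a1 j - c) := h
        rw [div_eq_div_iff h2 h3] at h
        have h4 := mul_left_cancel₀ hε0 h
        exact hsinj i hi j hj (by linarith))
      (by
        intro y hy r
        have h2 := hev y hy (-(r * (sc a0 a1 y - c)))
        have h3 := sub_ne_zero.2 (hc y (mem_filter.1 hy).1)
        have h4 : (S \ A).filter (fun w => YY a0 a1 w - ε / (sc a0 a1 y - c) *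
            (ε * (XX a0 a1 w - c * YY a0 a1 w)) = r) =
            (S \ A).filter (fun w => XX a0 a1 w - sc a0 a1 y * YY a0 a1 w = -(r * (sc a0 a1 y - c))) := by
          apply filter_congr
          intro w _
          have h5 : YY a0 a1 w - ε / (sc a0 a1 y - c) * (ε * (XX a0 a1 w - c * YY a0 a1 w)) =
              -(XX a0 a1 w - sc a0 a1 y * YY a0 a1 w) / (sc a0 a1 y - c) := by
            rw [eq_div_iff h3]
            have h6 : ε / (sc a0 a1 y - c) * (sc a0 a1 y - c) = ε := div_mul_cancel₀ _ h3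
            linear_combination (-(ε * (XX a0 a1 w - c * YY a0 a1 w))) * h6 -
              (XX a0 a1 w - c * YY a0 a1 w) * hε2
          rw [h5, div_eq_iff h3]
          constructor
          · intro h; linarith
          · intro h; linarith
        rw [h4]
        exact h2)
    have h2 := even_at hA h0 h1 h01 (hVF hb) hε hc hmax G
      (fun σ hσ => ⟨(hG2 σ hσ).1, _, (hG2 σ hσ).2, fun w => by rw [@mem_filter]⟩)
    omega
  · intro T hT
    by_contra hcon
    rw [not_le, two_lt_card] at hcon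
    obtain ⟨b1, hb1, b2, hb2, b3, hb3, h12, h13, h23⟩ := hcon
    rw [mem_inter] at hb1 hb2 hb3
    have hcol := Pool.Agent.Dirac80.area_of_collinear (mem_connecting.1 hT).2.2.1
      (p := b1) (q := b2) (r := b3) (by exact_mod_cast hb1.2) (by exact_mod_cast hb2.2)
      (by exact_mod_cast hb3.2)
    have f1 := hVF hb1.1
    have f2 := hVF hb2.1
    have f3 := hVF hb3.1
    rw [col2 h01 (hF0 b1 f1) (hF0 b2 f2) (hF0 b3 f3)] at hcol
    obtain ⟨c1, e1, -, -, m1⟩ := hV b1 hb1.1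
    obtain ⟨c2, e2, -, -, m2⟩ := hV b2 hb2.1
    obtain ⟨c3, e3, -, -, m3⟩ := hV b3 hb3.1
    exact three hcol (m1 b2 f2 h12.symm) (m1 b3 f3 h13.symm) (m2 b1 f1 h12) (m2 b3 f3 h23.symm)
      (m3 b1 f1 h13) (m3 b2 f2 h23)

end Pool.Agent.Dirac86.Few
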