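import Mathlib
import Pool.Agent.Dirac86.Few.Basic
import Pool.Agent.Dirac86.Few.Hull

/-!
# Dirac bound with few even-rich lines: the final count
-/

set_option autoImplicit false
open Finset Classical

namespace Pool.Agent.Dirac86.Few

open Pool.Agent.Dirac80 (connectingLines mem_connecting connecting_eq Pl area)

/-- double counting -/
theorem cnt_dbl (S : Finset Pl) (𝓑 : Finset (Finset Pl)) (h : ∀ T ∈ 𝓑, T ⊆ S) (w : Pl → ℤ) :
    ∑ T ∈ 𝓑, ∑ x ∈ T, w x = ∑ x ∈ S, ((𝓑.filter (fun T => x ∈ T)).card : ℤ) * w x := by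
  have h1 : ∀ T ∈ 𝓑, ∑ x ∈ T, w x = ∑ x ∈ S, if x ∈ T then w x else 0 := by
    intro T hT
    rw [← sum_filter]
    congr 1
    ext x
    rw [mem_filter]
    exact ⟨fun hx => ⟨h T hT hx, hx⟩, fun hx => hx.2⟩
  rw [sum_congr rfl h1, sum_comm]
  refine sum_congr rfl (fun x _ => ?_)
  rw [← sum_filter, sum_const, nsmul_eq_mul]

/-- the pointwise inequality -/
theorem cnt_point (e m : ℤ) (he : e = 1 ∨ 3 ≤ e) (h0 : 0 ≤ m) (hm : m ≤ e) :
    (if m = 0 then e - 1 else 0) + m * (if e = 1 then -1 else 1) ≤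
      e - m - 1 + m * (m - 1) := by
  rcases eq_or_lt_of_le h0 with h1 | h1
  · rw [← h1]
    simp
  · rw [if_neg h1.ne']
    rcases he with h2 | h2
    · have h3 : m = 1 := by omega
      rw [h3, h2]
      simp
    · rw [if_neg (by omega)]
      have h3 : m = 1 ∨ m = 2 ∨ 3 ≤ m := by omega
      rcases h3 with h3 | h3 | h3
      · rw [h3]; omega
      · rw [h3]; omega
      · nlinarith

/-- the numerical inequality -/
theorem cnt_num (k d Y q : ℤ) (hk : 1 ≤ k) (hd : 4 ≤ d) (hq : 0 ≤ q)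
    (hq2 : 2 * d - 2 * (k - 1) ≤ q) (hY : q * (d - 2) ≤ Y) : k * d ≤ Y + k * (k - 1) := by
  rcases le_or_gt d (k - 1) with h | h
  · have h1 : 0 ≤ q * (d - 2) := mul_nonneg hq (by omega)
    have h2 : k * d ≤ k * (k - 1) := mul_le_mul_of_nonneg_left h (by omega)
    linarith
  · have h1 : (2 * d - 2 * (k - 1)) * (d - 2) ≤ q * (d - 2) :=
      mul_le_mul_of_nonneg_right hq2 (by omega)
    have h2 : 0 ≤ (d - k + 1) * (2 * d - k - 4) := mul_nonneg (by omega) (by omega)
    nlinarith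

theorem cnt_w (T : Finset Pl) (p : Pl → Prop) [DecidablePred p] :
    ∑ x ∈ T, (if p x then (-1 : ℤ) else 1) = (T.card : ℤ) - 2 * ((T.filter p).card : ℤ) := by
  have h1 : ∀ x ∈ T, (if p x then (-1 : ℤ) else 1) = 1 - 2 * (if p x then 1 else 0) := by
    intro x _
    split_ifs <;> simp
  rw [sum_congr rfl h1, sum_sub_distrib, ← mul_sum, ← sum_filter]
  simp

/-- few points of `V` are on members of `𝓐` -/
theorem cnt_V (V T0 : Finset Pl) (𝓐 : Finset (Finset Pl)) (hT0 : T0 ∈ 𝓐)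
    (h0 : ∀ x ∈ V, x ∉ T0) (h2 : ∀ T ∈ 𝓐, (V ∩ T).card ≤ 2) :
    V.card ≤ (V.filter (fun x => (𝓐.filter (fun T => x ∈ T)).card = 0)).card +
      2 * (𝓐.card - 1) := by
  have h3 : V ⊆ (V.filter (fun x => (𝓐.filter (fun T => x ∈ T)).card = 0)) ∪
      (𝓐.erase T0).biUnion (fun T => V ∩ T) := by
    intro x hx
    rw [mem_union]
    by_cases hc : (𝓐.filter (fun T => x ∈ T)).card = 0
    · left
      rw [mem_filter]
      exact ⟨hx, hc⟩
    · right
      have h4 : (𝓐.filter (fun T => x ∈ T)).Nonempty := by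
        rw [← card_pos]
        omega
      obtain ⟨T, hT⟩ := h4
      rw [mem_filter] at hT
      rw [mem_biUnion]
      refine ⟨T, ?_, ?_⟩
      · rw [mem_erase]
        refine ⟨?_, hT.1⟩
        rintro rfl
        exact h0 x hx hT.2
      · rw [mem_inter]
        exact ⟨hx, hT.2⟩
  have h5 : ((𝓐.erase T0).biUnion (fun T => V ∩ T)).card ≤ (𝓐.erase T0).card * 2 := by
    refine card_biUnion_le_card_mul _ _ _ ?_
    intro T hT
    exact h2 T (mem_of_mem_erase hT)
  have h6 := (card_le_card h3).trans (card_union_le _ _)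
  rw [card_erase_of_mem hT0] at h5
  omega

theorem few_three (S : Finset Pl) (hn : Even S.card) (hS : ¬ Collinear ℝ (S : Set Pl))
    (𝓐 : Finset (Finset Pl))
    (h𝓐 : 𝓐 ⊆ (connectingLines S).filter (fun T => 4 ≤ T.card ∧ Even T.card)) :
    S.card ≤ ∑ T ∈ (connectingLines S).filter (fun T => Even T.card ∧ T ∉ 𝓐), T.card +
      (∑ x ∈ S, ((𝓐.filter (fun T => x ∈ T)).card * ((𝓐.filter (fun T => x ∈ T)).card - 1))) +
      max (2 * 𝓐.card) (𝓐.card * (𝓐.card - 1)) := by
  have hA : ∀ T ∈ 𝓐, T ∈ connectingLines S ∧ 4 ≤ T.card ∧ Even T.card := by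
    intro T hT
    have := h𝓐 hT
    rw [mem_filter] at this
    exact this
  have hsub : ∀ T ∈ connectingLines S, T ⊆ S := fun T hT => (mem_connecting.mp hT).1
  -- the number of even lines through a point
  have he3 : ∀ x ∈ S, ((evl S x : ℕ) : ℤ) = 1 ∨ 3 ≤ ((evl S x : ℕ) : ℤ) := by
    intro x hx
    obtain ⟨a, ha⟩ := evl_odd S hn hx
    omega
  have hsplit : ∀ x, (((connectingLines S).filter (fun T => Even T.card ∧ T ∉ 𝓐)).filter
      (fun T => x ∈ T)).card + (𝓐.filter (fun T => x ∈ T)).card = evl S x := by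
    intro x
    unfold evl
    rw [← card_union_of_disjoint]
    · congr 1
      ext T
      simp only [mem_union, mem_filter]
      constructor
      · rintro (⟨⟨h1, h2, h3⟩, h4⟩ | ⟨h1, h2⟩)
        · exact ⟨h1, h2, h4⟩
        · exact ⟨(hA T h1).1, (hA T h1).2.2, h2⟩
      · rintro ⟨h1, h2, h3⟩
        by_cases h4 : T ∈ 𝓐
        · right; exact ⟨h4, h3⟩
        · left; exact ⟨⟨h1, h2, h4⟩, h3⟩
    · rw [disjoint_left]
      intro T h1 h2
      rw [mem_filter, mem_filter] at h1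
      rw [mem_filter] at h2
      exact h1.1.2.2 h2.1
  -- the sum of the sizes of the remaining even lines
  have hR : ((∑ T ∈ (connectingLines S).filter (fun T => Even T.card ∧ T ∉ 𝓐), T.card : ℕ) : ℤ)
      = ∑ x ∈ S, (((evl S x : ℕ) : ℤ) - (((𝓐.filter (fun T => x ∈ T)).card : ℕ) : ℤ)) := by
    have h1 := cnt_dbl S ((connectingLines S).filter (fun T => Even T.card ∧ T ∉ 𝓐))
      (fun T hT => hsub T (mem_filter.mp hT).1) (fun _ => 1)
    rw [Nat.cast_sum]
    have h2 : ∀ T ∈ (connectingLines S).filter (fun T => Even T.card ∧ T ∉ 𝓐),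
        ((T.card : ℕ) : ℤ) = ∑ x ∈ T, (1 : ℤ) := by
      intro T _
      simp
    rw [sum_congr rfl h2, h1]
    refine sum_congr rfl (fun x _ => ?_)
    have h3 := hsplit x
    rw [← h3]
    push_cast
    ring
  have hw := cnt_dbl S 𝓐 (fun T hT => hsub T (hA T hT).1)
    (fun x => if ((evl S x : ℕ) : ℤ) = 1 then -1 else 1)
  have hpt : ∑ x ∈ S, ((if (((𝓐.filter (fun T => x ∈ T)).card : ℕ) : ℤ) = 0 then
      ((evl S x : ℕ) : ℤ) - 1 else 0) + (((𝓐.filter (fun T => x ∈ T)).card : ℕ) : ℤ) *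
      (if ((evl S x : ℕ) : ℤ) = 1 then -1 else 1)) ≤
      ∑ x ∈ S, (((evl S x : ℕ) : ℤ) - (((𝓐.filter (fun T => x ∈ T)).card : ℕ) : ℤ) - 1 +
        (((𝓐.filter (fun T => x ∈ T)).card : ℕ) : ℤ) *
          ((((𝓐.filter (fun T => x ∈ T)).card : ℕ) : ℤ) - 1)) := by
    refine sum_le_sum (fun x hx => ?_)
    refine cnt_point _ _ (he3 x hx) (Int.natCast_nonneg _) ?_
    have h3 := hsplit x
    omega
  rw [sum_add_distrib, ← hw, sum_add_distrib, sum_sub_distrib, ← hR] at hpt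
  have hone : ∑ x ∈ S, (1 : ℤ) = (S.card : ℤ) := by simp
  rw [hone] at hpt
  have hmm : ((∑ x ∈ S, ((𝓐.filter (fun T => x ∈ T)).card *
      ((𝓐.filter (fun T => x ∈ T)).card - 1)) : ℕ) : ℤ) =
      ∑ x ∈ S, ((((𝓐.filter (fun T => x ∈ T)).card : ℕ) : ℤ) *
          ((((𝓐.filter (fun T => x ∈ T)).card : ℕ) : ℤ) - 1)) := by
    rw [Nat.cast_sum]
    refine sum_congr rfl (fun x _ => ?_)
    generalize (𝓐.filter (fun T => x ∈ T)).card = m
    cases m with
    | zero => simp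
    | succ m => push_cast; ring
  rw [← hmm] at hpt
  have hws : ∀ T ∈ 𝓐, ∑ x ∈ T, (if ((evl S x : ℕ) : ℤ) = 1 then (-1 : ℤ) else 1) =
      (T.card : ℤ) - 2 * (((T.filter (fun x => evl S x = 1)).card : ℕ) : ℤ) := by
    intro T _
    rw [cnt_w T (fun x => ((evl S x : ℕ) : ℤ) = 1)]
    have h1 : (T.filter (fun x => ((evl S x : ℕ) : ℤ) = 1)) = T.filter (fun x => evl S x = 1) := by
      ext x
      rw [mem_filter, mem_filter, Nat.cast_eq_one]
    rw [h1]
  rw [sum_congr rfl hws] at hpt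
  set Y : ℤ := ∑ x ∈ S, (if (((𝓐.filter (fun T => x ∈ T)).card : ℕ) : ℤ) = 0 then
      ((evl S x : ℕ) : ℤ) - 1 else 0) with hYdef
  set M : ℤ := ((max (2 * 𝓐.card) (𝓐.card * (𝓐.card - 1)) : ℕ) : ℤ) with hMdef
  -- the core inequality
  have hcore : ∑ T ∈ 𝓐, (2 * (((T.filter (fun x => evl S x = 1)).card : ℕ) : ℤ) - (T.card : ℤ)) ≤
      Y + M := by
    have hYterm : ∀ x ∈ S, 0 ≤ (if (((𝓐.filter (fun T => x ∈ T)).card : ℕ) : ℤ) = 0 then
      ((evl S x : ℕ) : ℤ) - 1 else 0) := by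
      intro x hx
      have := he3 x hx
      split_ifs
      · omega
      · exact le_refl 0
    have hY0 : 0 ≤ Y := sum_nonneg hYterm
    have hM0 : 2 * (𝓐.card : ℤ) ≤ M := by
      have h1 := le_max_left (2 * 𝓐.card) (𝓐.card * (𝓐.card - 1))
      rw [hMdef]
      exact_mod_cast h1
    have hM1 : (𝓐.card : ℤ) * ((𝓐.card : ℤ) - 1) ≤ M := by
      have h1 := le_max_right (2 * 𝓐.card) (𝓐.card * (𝓐.card - 1))
      have h2 : ((𝓐.card * (𝓐.card - 1) : ℕ) : ℤ) = (𝓐.card : ℤ) * ((𝓐.card : ℤ) - 1) := by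
        generalize 𝓐.card = m
        cases m with
        | zero => simp
        | succ m => push_cast; ring
      rw [← h2, hMdef]
      exact_mod_cast h1
    rcases 𝓐.eq_empty_or_nonempty with h0 | h0
    · rw [h0, sum_empty]
      have : (0 : ℤ) ≤ (𝓐.card : ℤ) := Int.natCast_nonneg _
      omega
    · obtain ⟨T0, hT0, hmax⟩ := exists_max_image 𝓐
        (fun T => 2 * (((T.filter (fun x => evl S x = 1)).card : ℕ) : ℤ) - (T.card : ℤ)) h0
      set d : ℤ := 2 * (((T0.filter (fun x => evl S x = 1)).card : ℕ) : ℤ) - (T0.card : ℤ)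
        with hd
      have hsum : ∑ T ∈ 𝓐, (2 * (((T.filter (fun x => evl S x = 1)).card : ℕ) : ℤ) -
          (T.card : ℤ)) ≤ (𝓐.card : ℤ) * d := by
        have h1 := sum_le_card_nsmul 𝓐 (fun T => 2 * (((T.filter
          (fun x => evl S x = 1)).card : ℕ) : ℤ) - (T.card : ℤ)) d hmax
        rw [nsmul_eq_mul] at h1
        exact h1
      obtain ⟨hc0, h40, hev0⟩ := hA T0 hT0
      have hk1 : (1 : ℤ) ≤ (𝓐.card : ℤ) := by
        have := card_pos.mpr h0
        omega
      have hd4 : d ≤ 2 ∨ 4 ≤ d := by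
        obtain ⟨c, hc⟩ := hev0
        omega
      rcases hd4 with hd4 | hd4
      · have h1 : (𝓐.card : ℤ) * d ≤ (𝓐.card : ℤ) * 2 :=
          mul_le_mul_of_nonneg_left hd4 (by omega)
        linarith
      · obtain ⟨V, hV, hVc, hVe, hVl⟩ := hull_set S hn hS hc0 hev0 (by omega) h40
        have hV0 : ∀ x ∈ V, x ∉ T0 := fun x hx => (mem_sdiff.mp (hV hx)).2
        have hcV := cnt_V V T0 𝓐 hT0 hV0 (fun T hT => hVl T (hA T hT).1)
        have hβ : (T0.filter (fun x => evl S x = 1)).card ≤ T0.card := card_filter_le _ _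
        have hYq : (((V.filter (fun x => (𝓐.filter (fun T => x ∈ T)).card = 0)).card : ℕ) : ℤ) *
            (d - 2) ≤ Y := by
          have h1 : ∑ x ∈ V.filter (fun x => (𝓐.filter (fun T => x ∈ T)).card = 0), (d - 2) ≤
              ∑ x ∈ V.filter (fun x => (𝓐.filter (fun T => x ∈ T)).card = 0),
                (if (((𝓐.filter (fun T => x ∈ T)).card : ℕ) : ℤ) = 0 then
                  ((evl S x : ℕ) : ℤ) - 1 else 0) := by
            refine sum_le_sum (fun x hx => ?_)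
            rw [mem_filter] at hx
            rw [if_pos (by rw [hx.2]; rfl)]
            have := hVe x hx.1
            omega
          rw [sum_const, nsmul_eq_mul] at h1
          refine h1.trans ?_
          refine sum_le_sum_of_subset_of_nonneg ?_ ?_
          · intro x hx
            rw [mem_filter] at hx
            exact (mem_sdiff.mp (hV hx.1)).1
          · intro x hx _
            exact hYterm x hx
        have h2 := cnt_num (𝓐.card : ℤ) d Y
          (((V.filter (fun x => (𝓐.filter (fun T => x ∈ T)).card = 0)).card : ℕ) : ℤ) hk1 hd4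
          (Int.natCast_nonneg _) (by omega) hYq
        linarith
  have hneg : ∑ T ∈ 𝓐, ((T.card : ℤ) - 2 * (((T.filter (fun x => evl S x = 1)).card : ℕ) : ℤ)) =
      - ∑ T ∈ 𝓐, (2 * (((T.filter (fun x => evl S x = 1)).card : ℕ) : ℤ) - (T.card : ℤ)) := by
    rw [← sum_neg_distrib]
    exact sum_congr rfl (fun T _ => by ring)
  rw [hneg] at hpt
  have hfin : (S.card : ℤ) ≤
      ((∑ T ∈ (connectingLines S).filter (fun T => Even T.card ∧ T ∉ 𝓐), T.card : ℕ) : ℤ) +
      ((∑ x ∈ S, ((𝓐.filter (fun T => x ∈ T)).card *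
        ((𝓐.filter (fun T => x ∈ T)).card - 1)) : ℕ) : ℤ) + M := by
    linarith
  rw [hMdef] at hfin
  exact_mod_cast hfin

end Pool.Agent.Dirac86.Few
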