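import Mathlib
import Pool.Agent.Dirac86.Few.Defs
import Pool.Agent.Dirac86.Few.Count
import Pool.Agent.Dirac86.Few.Basic
import Pool.Agent.Dirac86.Final

/-!
# Dirac bound with few even-rich lines: assembly
-/

set_option autoImplicit false
open Finset Classical

namespace Pool.Agent.Dirac86.Few

open Pool.Agent.Dirac80 (connectingLines mem_connecting connecting_eq Pl area)
open Pool.Agent.Dirac80b (two_mul_ordinary even_main even_all)

/-- two different connecting lines have at most one common point -/
theorem inter_le (S : Finset Pl) {T T' : Finset Pl} (hT : T ∈ connectingLines S)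
    (hT' : T' ∈ connectingLines S) (hne : T ≠ T') : (T ∩ T').card ≤ 1 := by
  by_contra hcon
  push Not at hcon
  obtain ⟨p, hp, q, hq, hpq⟩ := one_lt_card.mp hcon
  rw [mem_inter] at hp hq
  exact hne ((connecting_eq hT hp.1 hq.1 hpq).trans (connecting_eq hT' hp.2 hq.2 hpq).symm)

theorem pairs_le (S : Finset Pl) (𝓐 : Finset (Finset Pl)) (h𝓐 : 𝓐 ⊆ connectingLines S) :
    ∑ x ∈ S, ((𝓐.filter (fun T => x ∈ T)).card * ((𝓐.filter (fun T => x ∈ T)).card - 1)) ≤
      𝓐.card * (𝓐.card - 1) := by
  have h1 : ∀ x ∈ S, (𝓐.filter (fun T => x ∈ T)).card * ((𝓐.filter (fun T => x ∈ T)).card - 1)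
      = ∑ q ∈ 𝓐.offDiag, if x ∈ q.1 ∩ q.2 then 1 else 0 := by
    intro x _
    rw [← card_filter]
    have e : (𝓐.offDiag.filter (fun q => x ∈ q.1 ∩ q.2)) =
        (𝓐.filter (fun T => x ∈ T)).offDiag := by
      ext q
      simp only [mem_filter, mem_offDiag, mem_inter]
      tauto
    rw [e, offDiag_card, Nat.mul_sub_one]
  rw [sum_congr rfl h1, sum_comm]
  have h2 : ∀ q ∈ 𝓐.offDiag, (∑ x ∈ S, if x ∈ q.1 ∩ q.2 then 1 else 0) ≤ 1 := by
    intro q hq
    rw [mem_offDiag] at hq
    rw [← card_filter]
    refine le_trans (card_le_card ?_) (inter_le S (h𝓐 hq.1) (h𝓐 hq.2.1) hq.2.2)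
    intro x hx
    exact (mem_filter.mp hx).2
  refine (sum_le_sum h2).trans ?_
  rw [sum_const, smul_eq_mul, mul_one, offDiag_card, Nat.mul_sub_one]

/-- the sum over the even lines not in `𝓐` -/
theorem sum_even (S : Finset Pl) (𝓐 : Finset (Finset Pl))
    (h𝓐 : 𝓐 ⊆ (connectingLines S).filter (fun T => 4 ≤ T.card ∧ Even T.card)) :
    ∑ T ∈ (connectingLines S).filter (fun T => Even T.card ∧ T ∉ 𝓐), T.card =
      2 * {T : Finset Pl | T ⊆ S ∧ T.card = 2 ∧
            ∀ r ∈ S, r ∈ affineSpan ℝ (T : Set Pl) → r ∈ T}.ncard +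
        ∑ T ∈ (connectingLines S).filter (fun T => 4 ≤ T.card ∧ Even T.card ∧ T ∉ 𝓐), T.card := by
  rw [two_mul_ordinary S, sum_filter, sum_filter, ← sum_add_distrib]
  refine sum_congr rfl (fun T hT => ?_)
  have h2 := (mem_connecting.mp hT).2.1
  by_cases h3 : T.card = 2
  · have h4 : T ∉ 𝓐 := by
      intro h
      have := (mem_filter.mp (h𝓐 h)).2.1
      omega
    rw [if_pos ⟨h3 ▸ even_two, h4⟩, if_pos h3, if_neg (fun h => by omega)]
    omega
  · rw [if_neg h3, zero_add]
    by_cases h4 : Even T.card ∧ T ∉ 𝓐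
    · have h5 : 4 ≤ T.card := by
        obtain ⟨a, ha⟩ := h4.1
        omega
      rw [if_pos h4, if_pos ⟨h5, h4⟩]
    · rw [if_neg h4, if_neg (fun h => h4 h.2)]

/-- Dirac's bound up to `2 k (k - 1)`, `k` the number of removed even-rich lines -/
theorem few_all (S : Finset Pl) (hn : Even S.card) (hS : ¬ Collinear ℝ (S : Set Pl))
    (𝓐 : Finset (Finset Pl))
    (h𝓐 : 𝓐 ⊆ (connectingLines S).filter (fun T => 4 ≤ T.card ∧ Even T.card)) :
    S.card ≤ 2 * {T : Finset Pl | T ⊆ S ∧ T.card = 2 ∧
            ∀ r ∈ S, r ∈ affineSpan ℝ (T : Set Pl) → r ∈ T}.ncard +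
        ∑ T ∈ (connectingLines S).filter (fun T => 4 ≤ T.card ∧ Even T.card ∧ T ∉ 𝓐), T.card +
        2 * 𝓐.card * (𝓐.card - 1) := by
  have h𝓐' : 𝓐 ⊆ connectingLines S := fun T hT => (mem_filter.mp (h𝓐 hT)).1
  have hR := sum_even S 𝓐 h𝓐
  rw [← hR]
  have hfew := few_three S hn hS 𝓐 h𝓐
  have hP := pairs_le S 𝓐 h𝓐'
  rcases Nat.lt_or_ge 𝓐.card 3 with hk | hk
  · interval_cases hk' : 𝓐.card
    · -- `k = 0`
      rw [card_eq_zero] at hk'
      have := even_all S hn
      rw [hk']
      simpa using this
    · obtain ⟨A, rfl⟩ := card_eq_one.mp hk'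
      have hA := mem_filter.mp (h𝓐 (mem_singleton_self A))
      have := even_main S hn hS hA.1 hA.2.2 hA.2.1
      simpa using this
    · obtain ⟨A, B, hAB, rfl⟩ := card_eq_two.mp hk'
      have hA := mem_filter.mp (h𝓐 (mem_insert_self A {B}))
      have hB := mem_filter.mp (h𝓐 (mem_insert_of_mem (mem_singleton_self B)))
      by_cases hd : ∃ o, o ∈ A ∧ o ∈ B
      · obtain ⟨o, hoA, hoB⟩ := hd
        have h1 : S.card ≤ 1 +
            2 * {T : Finset Pl | T ⊆ S ∧ T.card = 2 ∧
              ∀ r ∈ S, r ∈ affineSpan ℝ (T : Set Pl) → r ∈ T}.ncard +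
            ∑ T ∈ (connectingLines S).filter
              (fun T => 4 ≤ T.card ∧ Even T.card ∧ o ∉ T), T.card +
            ((connectingLines S).filter (fun T => 4 ≤ T.card ∧ Even T.card ∧ o ∈ T)).card := by
          have h0 := pencil S hS o ((mem_connecting.mp hA.1).1 hoA)
          rw [if_pos hn] at h0
          convert h0
        rw [hR]
        have h2 : ∑ T ∈ (connectingLines S).filter
              (fun T => 4 ≤ T.card ∧ Even T.card ∧ o ∉ T), T.card +
            ((connectingLines S).filter (fun T => 4 ≤ T.card ∧ Even T.card ∧ o ∈ T)).card ≤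
            ∑ T ∈ (connectingLines S).filter
              (fun T => 4 ≤ T.card ∧ Even T.card ∧ T ∉ ({A, B} : Finset (Finset Pl))), T.card
              + 2 := by
          have e1 : ((connectingLines S).filter
              (fun T => 4 ≤ T.card ∧ Even T.card ∧ o ∈ T)).card =
              ∑ T ∈ connectingLines S, if 4 ≤ T.card ∧ Even T.card ∧ o ∈ T then 1 else 0 := by
            rw [card_filter]
          have e2 : ∑ T ∈ connectingLines S,
              (if T ∈ ({A, B} : Finset (Finset Pl)) then 1 else 0) ≤ 2 := by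
            rw [← card_filter]
            refine le_trans (card_le_card (t := {A, B}) ?_) card_le_two
            intro T hT
            exact (mem_filter.mp hT).2
          rw [e1, sum_filter, sum_filter, ← sum_add_distrib]
          refine le_trans (sum_le_sum (fun T _ => ?_)) ((sum_add_distrib).le.trans
            (Nat.add_le_add_left e2 _))
          by_cases hoT : o ∈ T
          · by_cases h4 : 4 ≤ T.card ∧ Even T.card
            · by_cases h5 : T ∈ ({A, B} : Finset (Finset Pl))
              · rw [if_neg (fun h => h.2.2 hoT), if_pos ⟨h4.1, h4.2, hoT⟩,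
                  if_neg (fun h => h.2.2 h5), if_pos h5]
              · rw [if_neg (fun h => h.2.2 hoT), if_pos ⟨h4.1, h4.2, hoT⟩,
                  if_pos ⟨h4.1, h4.2, h5⟩, if_neg h5]
                omega
            · rw [if_neg (fun h => h.2.2 hoT), if_neg (fun h => h4 ⟨h.1, h.2.1⟩)]
              exact Nat.zero_le _
          · have h6 : T ∉ ({A, B} : Finset (Finset Pl)) := by
              rw [mem_insert, mem_singleton]
              rintro (rfl | rfl)
              · exact hoT hoA
              · exact hoT hoB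
            rw [if_neg (fun h : 4 ≤ T.card ∧ Even T.card ∧ o ∈ T => hoT h.2.2), if_neg h6]
            by_cases h4 : 4 ≤ T.card ∧ Even T.card
            · rw [if_pos ⟨h4.1, h4.2, hoT⟩, if_pos ⟨h4.1, h4.2, h6⟩]
            · rw [if_neg (fun h => h4 ⟨h.1, h.2.1⟩)]
              exact Nat.zero_le _
        omega
      · have hP0 : ∑ x ∈ S, ((({A, B} : Finset (Finset Pl)).filter (fun T => x ∈ T)).card *
            ((({A, B} : Finset (Finset Pl)).filter (fun T => x ∈ T)).card - 1)) = 0 := by
          refine sum_eq_zero (fun x _ => ?_)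
          have h1 : (({A, B} : Finset (Finset Pl)).filter (fun T => x ∈ T)).card ≤ 1 := by
            by_contra hcon
            push Not at hcon
            obtain ⟨T, hT, T', hT', hne⟩ := one_lt_card.mp hcon
            rw [mem_filter, mem_insert, mem_singleton] at hT hT'
            apply hd
            rcases hT.1 with rfl | rfl
            · rcases hT'.1 with rfl | rfl
              · exact absurd rfl hne
              · exact ⟨x, hT.2, hT'.2⟩
            · rcases hT'.1 with rfl | rfl
              · exact ⟨x, hT'.2, hT.2⟩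
              · exact absurd rfl hne
          have h2 : (({A, B} : Finset (Finset Pl)).filter (fun T => x ∈ T)).card - 1 = 0 := by
            omega
          rw [h2, mul_zero]
        rw [hP0] at hfew
        simpa using hfew
  · have h1 : 2 * 𝓐.card ≤ 𝓐.card * (𝓐.card - 1) := by
      obtain ⟨j, hj⟩ : ∃ j, 𝓐.card = j + 3 := ⟨𝓐.card - 3, by omega⟩
      rw [hj, show j + 3 - 1 = j + 2 by omega]
      nlinarith
    rw [max_eq_right h1] at hfew
    rw [mul_assoc, two_mul]
    omega

end Pool.Agent.Dirac86.Few
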